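import Pool.Agent.MP_00906f_gt.H91.Defs

/-! Genus three: the data for the upper bound. -/

namespace Pool.Agent.MP_00906f_gt.H33U

open H46
open H91 (g0 w1 w2 w3 Par)

/-- A braid group acting on a lattice, with a rational quotient `M` of the abelianised kernel. -/
structure Dat6 (G H M : Type) [Group G] [AddCommGroup H] [AddCommGroup M] [Module ℚ M]
    extends Sys G H where
  hN : Even N
  h6 : N = 6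
  hB : ∀ g, g ∈ BB σ N
  hL : ∀ x, x ∈ toSys.L
  lift : ∀ (Q : Type) [Group Q] (τ : ℕ → Q), IsBF τ N → ∃ f : G →* Q, ∀ i, i < N → f (σ i) = τ i
  perm : G →* Equiv.Perm ℕ
  perm_σ : ∀ i, i < N → perm (σ i) = Equiv.swap i (i + 1)
  π : G →* Module.End ℚ M
  cl : G → M
  cl_mul : ∀ a ∈ ρ.ker, ∀ b ∈ ρ.ker, cl (a * b) = cl a + cl b
  π_cl : ∀ g, ∀ k ∈ ρ.ker, π g (cl k) = cl (g * k * g⁻¹)
  span : Submodule.span ℚ (cl '' ρ.ker) = ⊤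
  fin : Module.Finite ℚ M

namespace Dat6

variable {G H M : Type} [Group G] [AddCommGroup H] [AddCommGroup M] [Module ℚ M] (D : Dat6 G H M)

def t3 : M := D.cl (T3 D.σ)

def t5 : M := D.cl (T5 D.σ)

/-- The span of the orbit of `t3`. -/
def MU : Submodule ℚ M := Submodule.span ℚ (Set.range fun g => D.π g D.t3)

end Dat6

variable {G H M : Type} [Group G] [AddCommGroup H] [AddCommGroup M] [Module ℚ M]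

/-- Basic facts on `π`, `t3`, `t5`. -/
structure Kit1 (D : Dat6 G H M) : Prop where
  π_congr : ∀ g g', D.ρ g = D.ρ g' → D.π g = D.π g'
  cl_one : D.cl 1 = 0
  cl_inv : ∀ k ∈ D.ρ.ker, D.cl k⁻¹ = -D.cl k
  T3_ker : T3 D.σ ∈ D.ρ.ker
  T5_ker : T5 D.σ ∈ D.ρ.ker
  par3 : ∀ g ∈ Par D.σ D.N 2, D.π g D.t3 = D.t3
  par5 : ∀ g ∈ Par D.σ D.N 4, D.π g D.t5 = D.t5
  D4_t3 : D.π ((D.σ 0 * D.σ 1 * D.σ 2) ^ 4) D.t3 = D.t3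
  D6_t5 : D.π ((D.σ 0 * D.σ 1 * D.σ 2 * D.σ 3 * D.σ 4) ^ 6) D.t5 = D.t5
  ρ_D4 : ∀ x, D.ρ ((D.σ 0 * D.σ 1 * D.σ 2) ^ 4) x =
    x + (2 * D.ω x (D.c 0 + D.c 2)) • (D.c 0 + D.c 2)
  ρ_D6 : ∀ x, D.ρ ((D.σ 0 * D.σ 1 * D.σ 2 * D.σ 3 * D.σ 4) ^ 6) x =
    x + (2 * D.ω x (D.c 0 + D.c 2 + D.c 4)) • (D.c 0 + D.c 2 + D.c 4)
  gen : Submodule.span ℚ
    (Set.range (fun g => D.π g D.t3) ∪ Set.range fun g => D.π g D.t5) = ⊤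
  MU_π : ∀ g, ∀ m ∈ D.MU, D.π g m ∈ D.MU
  conjσ : ∀ g (n : ℤ) x,
    D.ρ (g * D.σ 0 ^ n * g⁻¹) x = x + (n * D.ω x (D.ρ g (D.c 0))) • D.ρ g (D.c 0)
  trans : ∀ v, D.toSys.V v → ∃ g, D.ρ g (D.c 0) = v
  adj : ∀ x y, D.toSys.V x → D.toSys.V y → D.ω x y = 1 →
    ∃ g, D.ρ g (D.c 0) = x ∧ D.ρ g (D.c 1) = y
  gam : ∀ y, ∃ γ ∈ Par D.σ D.N 2, D.ω (D.ρ γ (D.c 0)) y = 0
  twd : ∀ g g' (i : ℤ), D.ρ g (D.c 0) = D.ρ g' (D.c 0) →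
    D.ρ g (D.c 1) = D.ρ g' (D.c 1) + i • D.ρ g' (D.c 0) → D.π g D.t3 = D.π g' D.t3

/-- The relation. -/
def Rel (D : Dat6 G H M) : Prop :=
  D.π (D.σ 2 * D.σ 3 * D.σ 4) D.t5 - D.π (D.σ 3 * D.σ 4) D.t5
      + D.π (yy D.σ 1 * yy D.σ 2 * D.σ 4) D.t5 - D.π (yy D.σ 1 * yy D.σ 2) D.t5
    - (D.π (D.σ 2 * D.σ 3 * D.σ 4 * g0 D.σ) D.t3 - D.π (D.σ 3 * D.σ 4 * g0 D.σ) D.t3
      + D.π (yy D.σ 1 * yy D.σ 2 * D.σ 4 * g0 D.σ) D.t3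
      - D.π (yy D.σ 1 * yy D.σ 2 * g0 D.σ) D.t3)
    = D.π (w3 D.σ) D.t3 + D.π (w1 D.σ) D.t3 - D.π (w2 D.σ) D.t3 - D.t3

end Pool.Agent.MP_00906f_gt.H33U
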