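import Pool.Agent.MP_00906f_gt.H33U.Defs
import Pool.Agent.MP_00906f_gt.H91.FIN

/-! Genus three: from the bound on data to the hyperelliptic Torelli group. -/

namespace Pool.Agent.MP_00906f_gt.H33U

open H46 H46.FinAux H91.FIN
open scoped TensorProduct

theorem fin_aux
    (hUP : ∀ (G H M : Type) [Group G] [AddCommGroup H] [AddCommGroup M] [Module ℚ M]
      (_ : Dat6 G H M), Module.finrank ℚ M ≤ 615) (g : ℕ) (hg : g = 3)
    (ρ : HT.HypMCG g →* Equiv.Perm (HT.Hom1 g)) (hρ : HT.IsHomologyAction g ρ) :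
    Module.finrank ℤ (Additive (Abelianization ρ.ker)) ≤ 614 := by
  classical
  obtain ⟨ρ', hρ'⟩ := exists_action g
  have hfg := reduction abstractFG g (by omega) ρ' hρ'
  have hker : ρ.ker = ρ'.ker := by
    let ι : (Hom1 g ≃ₗ[ℤ] Hom1 g) →* Equiv.Perm (Hom1 g) := MulAction.toPermHom _ _
    have hι : Function.Injective ι := fun a b e => LinearEquiv.ext fun x => by
      exact congrArg (fun f : Equiv.Perm (Hom1 g) => f x) e
    have e : ρ = ι.comp ρ' :=
      PresentedGroup.ext fun i => Equiv.ext fun x => (hρ i x).trans (hρ' i x).symm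
    rw [e]
    exact MonoidHom.ker_comp_of_injective ρ' ι hι
  rw [hker]
  change Module.finrank ℤ (Additive (Abelianization ρ'.ker)) ≤ _
  let ρ₀ : HypMCG g →* Module.End ℤ (Hom1 g) :=
    LinearEquiv.automorphismGroup.toLinearMapMonoidHom.comp ρ'
  have hk : ∀ x, ρ₀ x = 1 ↔ x ∈ ρ'.ker := fun x =>
    ⟨fun h => LinearEquiv.ext fun y => LinearMap.congr_fun h y, fun h => by
      simp only [ρ₀, MonoidHom.comp_apply, MonoidHom.mem_ker.1 h, map_one]⟩
  let τ : ℕ → HypMCG g := fun i => if h : i < 2 * g + 1 then PresentedGroup.of ⟨i, h⟩ else 1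
  have hτ : ∀ i : Fin (2 * g + 1), PresentedGroup.of i = τ i := fun i => by
    simp only [τ, dif_pos i.2]
  have hB : BH τ (2 * g + 1) :=
    (rels_iff g (PresentedGroup.mk _) τ hτ).1 fun r hr => PresentedGroup.one_of_mem hr
  have h1 : ∀ i, i < 2 * g + 1 → ∀ x, ρ₀ (τ i) x = x + om g x (chain g i) • chain g i :=
    fun i hi x => by rw [← hτ ⟨i, hi⟩]; exact hρ' ⟨i, hi⟩ x
  have htop : ∀ x, x ∈ BB τ (2 * g + 1) := fun x =>
    PresentedGroup.generated_by _ _ (fun i => by rw [hτ]; exact mem_BB i.2) x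
  let S := sys τ hB.bf ρ₀ h1
  obtain ⟨f, hf⟩ := s_lift (2 * g) _ _ S.bf
  obtain ⟨pm, hpm⟩ := s_lift (2 * g) _ _ (swap_bf (2 * g))
  obtain ⟨len, hlen⟩ := s_lift (2 * g) (Multiplicative ℚ) (fun _ => Multiplicative.ofAdd 1)
    ⟨fun _ _ => rfl, fun _ _ _ _ => rfl⟩
  have hmem : ∀ {k}, k ∈ (ρ₀.comp f).ker → f k ∈ ρ'.ker := fun h => (hk _).1 h
  let cl : Br (2 * g) → MM ρ'.ker := fun k =>
    if h : f k ∈ ρ'.ker then (br ⟨f k, h⟩, Multiplicative.toAdd (len k)) else 0
  have hcl : ∀ k (h : f k ∈ ρ'.ker), cl k = (br ⟨f k, h⟩, Multiplicative.toAdd (len k)) :=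
    fun k h => dif_pos h
  have hrange : ∀ x ∈ ρ'.ker, ∃ k, f k = x := fun x hx => by
    have h2 : BB (fun i => τ (i + 1)) (2 * g) ≤ f.range := by
      rw [BB, Subgroup.closure_le]
      rintro _ ⟨i, hi, rfl⟩
      exact ⟨_, hf i hi⟩
    exact h2 (ker_le (by omega) τ hB ρ₀ h1 htop ((hk x).2 hx))
  have hspan : Submodule.span ℚ (cl '' (ρ₀.comp f).ker) = ⊤ := by
    set U := Submodule.span ℚ (cl '' (ρ₀.comp f).ker)
    have hU : ∀ k (h : f k ∈ ρ'.ker), (br ⟨f k, h⟩, Multiplicative.toAdd (len k)) ∈ U :=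
      fun k h => Submodule.subset_span ⟨k, (hk _).2 h, hcl k h⟩
    have hz : f ((up (s (2 * g)) (2 * g) ^ (2 * g + 1)) ^ 2) = 1 := by
      rw [map_pow, map_pow, map_up f hf le_rfl]
      exact up_sq hB
    have h01 : ∀ a : ℚ, ((0, a) : MM ρ'.ker) ∈ U := fun a => by
      have h3 := hU _ (hz ▸ one_mem _)
      have e1 : br (⟨f ((up (s (2 * g)) (2 * g) ^ (2 * g + 1)) ^ 2), hz ▸ one_mem _⟩ : ρ'.ker)
          = 0 := by
        rw [show (⟨f ((up (s (2 * g)) (2 * g) ^ (2 * g + 1)) ^ 2), hz ▸ one_mem _⟩ : ρ'.ker) = 1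
          from Subtype.ext hz]
        simp [br]
      have e2 : Multiplicative.toAdd (len ((up (s (2 * g)) (2 * g) ^ (2 * g + 1)) ^ 2)) ≠ 0 := by
        rw [map_pow len, map_pow len, map_up len hlen le_rfl, up_const]
        simp only [toAdd_pow, toAdd_ofAdd, nsmul_eq_mul]
        have : (0 : ℚ) < ((2 * g : ℕ) : ℚ) := by exact_mod_cast (by omega : 0 < 2 * g)
        positivity
      rw [e1] at h3
      have h4 := U.smul_mem
        (a / Multiplicative.toAdd (len ((up (s (2 * g)) (2 * g) ^ (2 * g + 1)) ^ 2))) h3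
      rwa [Prod.smul_mk, smul_zero, smul_eq_mul, div_mul_cancel₀ _ e2] at h4
    refine Submodule.eq_top_iff'.2 fun v => ?_
    have h5 : ((v.1, 0) : MM ρ'.ker) ∈ U :=
      br_mem (U.comap (LinearMap.inl ℚ _ _)) (fun x => by
        obtain ⟨k, hk'⟩ := hrange x x.2
        have h6 := sub_mem (hU k (hk' ▸ x.2)) (h01 (Multiplicative.toAdd (len k)))
        rw [show (⟨f k, hk' ▸ x.2⟩ : ρ'.ker) = x from Subtype.ext hk'] at h6
        simpa using h6) v.1
    simpa using add_mem h5 (h01 v.2)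
  let D : Dat6 (Br (2 * g)) (Hom1 g) (MM ρ'.ker) :=
    { N := 2 * g
      σ := s (2 * g)
      c := S.c
      ω := S.ω
      ρ := ρ₀.comp f
      pt := S.pt
      bf := s_bf _
      alt := S.alt
      ch1 := S.ch1
      ch2 := S.ch2
      ρσ := fun i hi x => by rw [MonoidHom.comp_apply, hf i hi]; exact S.ρσ i hi x
      pt_c := S.pt_c
      hN := even_two_mul g
      h6 := by omega
      hB := s_top _
      hL := mem_of_chain _ fun i hi => Submodule.subset_span ⟨i, hi, rfl⟩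
      lift := s_lift _
      perm := pm
      perm_σ := hpm
      π := act.comp (MulAut.conjNormal.comp f)
      cl := cl
      cl_mul := fun a ha b hb => by
        rw [hcl _ (hmem ha), hcl _ (hmem hb), hcl _ (hmem (mul_mem ha hb)), Prod.mk_add_mk,
          ← br_mul, map_mul len, toAdd_mul]
        exact Prod.ext (congrArg br (Subtype.ext (map_mul f a b))) rfl
      π_cl := fun x k hk' => by
        rw [hcl _ (hmem hk'), hcl _ (hmem (MonoidHom.normal_ker _ |>.conj_mem k hk' x))]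
        refine (act_br _ _ _).trans (Prod.ext (congrArg br (Subtype.ext ?_)) ?_)
        · simp
        · simp
      span := hspan
      fin := rank_MM.1 }
  have h := hUP _ _ _ D
  rw [rank_MM.2] at h
  omega

/-- From the bound on data to the hyperelliptic Torelli group of genus three. -/
theorem fin3
    (hUP : ∀ (G H M : Type) [Group G] [AddCommGroup H] [AddCommGroup M] [Module ℚ M]
      (_ : Dat6 G H M), Module.finrank ℚ M ≤ 615)
    (ρ : HT.HypMCG 3 →* Equiv.Perm (HT.Hom1 3)) (hρ : HT.IsHomologyAction 3 ρ) :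
    Module.finrank ℤ (Additive (Abelianization ρ.ker)) ≤ 614 :=
  fin_aux hUP 3 rfl ρ hρ

end Pool.Agent.MP_00906f_gt.H33U
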