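import Pool.Agent.MP_00906f_gt.H33U.Defs
import Pool.Agent.MP_00906f_gt.H91.K1

/-! Genus three: basic facts on `π`, `t3`, `t5`. -/

namespace Pool.Agent.MP_00906f_gt.H33U

open H46
open H91 (Par)
open H91.K1 (par3_comm par5_comm CC_T3 D6_comm ρ_D4 ρ_D6 exists_γ y0_c0 y0_c1)

namespace K1

variable {G H M : Type} [Group G] [AddCommGroup H] [AddCommGroup M] [Module ℚ M] (D : Dat6 G H M)

theorem h2 : 2 ≤ D.N := by have := D.h6; omega

theorem mainS : D.toSys.Main := by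
  obtain ⟨k, hk⟩ := D.hN
  exact Sys.main k _ (by omega)

theorem cl_one : D.cl 1 = 0 := by
  have := D.cl_mul 1 (one_mem _) 1 (one_mem _)
  rw [mul_one] at this
  exact left_eq_add.1 this

theorem cl_inv (k : G) (hk : k ∈ D.ρ.ker) : D.cl k⁻¹ = -D.cl k := by
  have := D.cl_mul k hk k⁻¹ (inv_mem hk)
  rw [mul_inv_cancel, cl_one] at this
  exact (neg_eq_of_add_eq_zero_right this.symm).symm

theorem π_ker {k : G} (hk : k ∈ D.ρ.ker) : D.π k = 1 := by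
  refine LinearMap.ext_on D.span ?_
  rintro _ ⟨k', hk', rfl⟩
  rw [D.π_cl k k' hk', D.cl_mul _ (mul_mem hk hk') _ (inv_mem hk), D.cl_mul _ hk _ hk',
    cl_inv D k hk]
  simp

theorem π_congr (g g' : G) (h : D.ρ g = D.ρ g') : D.π g = D.π g' := by
  have hk : g'⁻¹ * g ∈ D.ρ.ker := by
    rw [MonoidHom.mem_ker, map_mul, h, ← map_mul, inv_mul_cancel, map_one]
  have e : g = g' * (g'⁻¹ * g) := by group
  rw [e, map_mul, π_ker D hk, mul_one]

theorem π_comm {g k : G} (hk : k ∈ D.ρ.ker) (h : k * g = g * k) : D.π g (D.cl k) = D.cl k := by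
  rw [D.π_cl g k hk, ← h, mul_inv_cancel_right]

theorem T3_ker : T3 D.σ ∈ D.ρ.ker := D.toSys.T3_ker (h2 D)

theorem T5_ker : T5 D.σ ∈ D.ρ.ker :=
  D.toSys.K0_le_ker (T5_mem ((by have := D.h6; omega)))

theorem par3 (g : G) (hg : g ∈ Par D.σ D.N 2) : D.π g D.t3 = D.t3 :=
  π_comm D (T3_ker D) (par3_comm D.bf (h2 D) hg)

theorem π_mul (a b : G) (m : M) : D.π (a * b) m = D.π a (D.π b m) := by
  rw [map_mul]; rfl

theorem gen : Submodule.span ℚ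
    (Set.range (fun g => D.π g D.t3) ∪ Set.range fun g => D.π g D.t5) = ⊤ := by
  rw [eq_top_iff, ← D.span, Submodule.span_le]
  rintro _ ⟨k, hk, rfl⟩
  have hk0 := (mainS D).2.2 k (D.hB k) hk
  clear hk
  induction hk0 using Subgroup.closure_induction with
  | mem x hx =>
    obtain ⟨g, -, ⟨-, rfl⟩ | ⟨-, rfl⟩⟩ := hx
    · exact Submodule.subset_span (Or.inl ⟨g, D.π_cl g _ (T3_ker D)⟩)
    · exact Submodule.subset_span (Or.inr ⟨g, D.π_cl g _ (T5_ker D)⟩)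
  | one =>
    rw [cl_one]
    exact zero_mem _
  | mul x y hx hy ihx ihy =>
    rw [D.cl_mul x (D.toSys.K0_le_ker hx) y (D.toSys.K0_le_ker hy)]
    exact add_mem ihx ihy
  | inv x hx ih =>
    rw [cl_inv D x (D.toSys.K0_le_ker hx)]
    exact neg_mem ih

theorem MU_π (g : G) (m : M) (hm : m ∈ D.MU) : D.π g m ∈ D.MU := by
  have : D.MU ≤ D.MU.comap (D.π g) := by
    refine Submodule.span_le.2 ?_
    rintro _ ⟨a, rfl⟩
    exact Submodule.subset_span ⟨g * a, π_mul D g a _⟩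
  exact this hm

theorem trans (v : H) (hv : D.toSys.V v) : ∃ g, D.ρ g (D.c 0) = v := by
  obtain ⟨b, -, h | h⟩ := (mainS D).1 v hv
  · exact ⟨b, h⟩
  · exact ⟨b * yy D.σ 0, by rw [D.toSys.ρ_mul, y0_c0 _ (h2 D), map_neg, h, neg_neg]⟩

theorem adj (x y : H) (hx : D.toSys.V x) (hy : D.toSys.V y) (h : D.ω x y = 1) :
    ∃ g, D.ρ g (D.c 0) = x ∧ D.ρ g (D.c 1) = y := by
  obtain ⟨a, ha⟩ := trans D x hx
  have hw := D.toSys.ρ_V (D.hB a⁻¹) hy
  have h1 : D.ω (D.c 0) (D.ρ a⁻¹ y) = 1 := by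
    rw [← D.toSys.ρ_ω (D.hB a), D.toSys.ρ_ρ_inv, ha, h]
  obtain ⟨b, hb, e1⟩ := D.toSys.C1 D.hN (h2 D) hw (by rw [h1]; simp)
  have e0 := D.toSys.Ga_c0 (h2 D) hb
  have e2 := D.toSys.ρ_ω (D.hB b) (D.c 0) (D.c 1)
  rw [D.toSys.ω01 (h2 D)] at e2
  rcases e0 with e0 | e0 <;> rcases e1 with e1 | e1
  · exact ⟨a * b, by rw [D.toSys.ρ_mul, e0, ha], by rw [D.toSys.ρ_mul, e1, D.toSys.ρ_ρ_inv]⟩
  · rw [e0, e1, map_neg, h1] at e2
    omega
  · rw [e0, e1, map_neg, LinearMap.neg_apply, h1] at e2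
    omega
  · refine ⟨a * (b * yy D.σ 0), ?_, ?_⟩
    · rw [D.toSys.ρ_mul, D.toSys.ρ_mul, y0_c0 _ (h2 D), map_neg, e0, neg_neg, ha]
    · rw [D.toSys.ρ_mul, D.toSys.ρ_mul, y0_c1 _ (h2 D), map_neg, e1, neg_neg, D.toSys.ρ_ρ_inv]

theorem BB_le_Par : BB D.σ 2 ≤ Par D.σ D.N 2 :=
  Subgroup.closure_mono (Set.image_mono fun i (hi : i < 2) =>
    ⟨lt_of_lt_of_le hi (h2 D), by omega⟩)

theorem fix {h : G} (h0 : D.ρ h (D.c 0) = D.c 0) (h1 : D.ρ h (D.c 1) = D.c 1) :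
    D.π h D.t3 = D.t3 := by
  obtain ⟨k, hk, g, hg, rfl⟩ := D.toSys.J_form (h2 D) ((mainS D).2.1 h (D.hB h) (Or.inl h0))
  have hk' := D.toSys.K0_le_ker hk
  rw [D.toSys.ρ_mul, D.toSys.ρ_of_ker hk'] at h1
  obtain ⟨l, hl, c, hc, rfl⟩ := D.toSys.C2 D.hN (h2 D) hg (Or.inl h1)
  rw [map_mul, map_mul, π_ker D hk', π_ker D (D.toSys.LL_le_ker hl), one_mul, one_mul]
  exact π_comm D (T3_ker D) (CC_T3 D.bf (h2 D) hc)

theorem twd (g g' : G) (i : ℤ) (h0 : D.ρ g (D.c 0) = D.ρ g' (D.c 0))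
    (h1 : D.ρ g (D.c 1) = D.ρ g' (D.c 1) + i • D.ρ g' (D.c 0)) : D.π g D.t3 = D.π g' D.t3 := by
  have hN := h2 D
  have f := fix D (h := D.σ 0 ^ i * (g'⁻¹ * g)) (by
    rw [D.toSys.ρ_mul, D.toSys.ρ_mul, h0, D.toSys.ρ_inv_ρ, D.toSys.ρσ_zpow (by omega), D.alt]
    simp) (by
    rw [D.toSys.ρ_mul, D.toSys.ρ_mul, h1, map_add, map_smul, D.toSys.ρ_inv_ρ, D.toSys.ρ_inv_ρ,
      D.toSys.ρσ_zpow (by omega)]
    simp only [map_add, map_smul, LinearMap.add_apply, LinearMap.smul_apply, D.alt,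
      D.toSys.ω10 hN, smul_eq_mul]
    module)
  have e : g = g' * (D.σ 0 ^ (-i) * (D.σ 0 ^ i * (g'⁻¹ * g))) := by group
  rw [e, π_mul, π_mul D (D.σ 0 ^ (-i)), f,
    par3 D _ (zpow_mem (BB_le_Par D (mem_BB (by norm_num))) _)]

end K1

open K1 in
theorem kit1 {G H M : Type} [Group G] [AddCommGroup H] [AddCommGroup M] [Module ℚ M]
    (D : Dat6 G H M) : Kit1 D := by
  have h6 := D.h6
  exact
    { π_congr := π_congr D
      cl_one := cl_one D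
      cl_inv := cl_inv D
      T3_ker := T3_ker D
      T5_ker := T5_ker D
      par3 := par3 D
      par5 := fun g hg => π_comm D (T5_ker D) (par5_comm D.bf (by omega) hg)
      D4_t3 := π_comm D (T3_ker D) (CC_T3 D.bf (h2 D)
        (Subgroup.subset_closure (Or.inl (Or.inr ⟨by omega, rfl⟩))))
      D6_t5 := π_comm D (T5_ker D) (D6_comm D.bf (by omega))
      ρ_D4 := ρ_D4 D.toSys (by omega)
      ρ_D6 := ρ_D6 D.toSys (by omega)
      gen := gen D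
      MU_π := MU_π D
      conjσ := fun g n x => by
        rw [← conj_zpow]
        exact D.toSys.ρ_conj_σ (D.hB g) (by omega) (PM.refl _) n x
      trans := K1.trans D
      adj := adj D
      gam := fun y => by
        obtain ⟨γ, hγ, e⟩ := exists_γ D.toSys (h2 D) y
        exact ⟨γ, BB_le_Par D hγ, e⟩
      twd := twd D }

end Pool.Agent.MP_00906f_gt.H33U
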