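import Mathlib

/-!
Two forms of Nakayama's lemma: lifting a rank computation modulo 127 to the rationals.
-/

open Polynomial

noncomputable section

namespace Pool.Agent.MP_00906f_gt.H33U

variable {Y : Type*} [AddCommGroup Y] [Module ℚ Y] {ι : Type*}

def J1 (y : ι → Y) : AddSubgroup Y := AddSubgroup.closure (Set.range fun i => (127 : ℤ) • y i)

def J2 (d : Module.End ℚ Y) (y : ι → Y) : AddSubgroup Y :=
  AddSubgroup.closure {v | ∃ (i : ι) (k : ℕ), v = d ((d ^ k) (y i)) - (2 : ℤ) • (d ^ k) (y i)}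

omit [Module ℚ Y] in
theorem J1_mem (y : ι → Y) (i : ι) : (127 : ℤ) • y i ∈ J1 y :=
  AddSubgroup.subset_closure ⟨i, rfl⟩

theorem nak1 [Finite ι] (y : ι → Y) (h : ∀ i, y i ∈ J1 y) (i : ι) : y i = 0 := by
  have hin : Submodule.span ℤ (Set.range y) ≤
      Ideal.span {(127 : ℤ)} • Submodule.span ℤ (Set.range y) := by
    refine Submodule.span_le.2 ?_
    rintro _ ⟨j, rfl⟩
    have : J1 y ≤ (Ideal.span {(127 : ℤ)} • Submodule.span ℤ (Set.range y)).toAddSubgroup := by
      refine (AddSubgroup.closure_le _).2 ?_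
      rintro _ ⟨l, rfl⟩
      exact Submodule.smul_mem_smul (Ideal.mem_span_singleton_self _)
        (Submodule.subset_span ⟨l, rfl⟩)
    exact this (h j)
  obtain ⟨r, hr, h0⟩ := Submodule.exists_sub_one_mem_and_smul_eq_zero_of_fg_of_le_smul _ _
    (Submodule.fg_span (Set.finite_range y)) hin
  have hr0 : (r : ℚ) ≠ 0 := by
    have := Ideal.mem_span_singleton.1 hr
    have : r ≠ 0 := by omega
    exact_mod_cast this
  have := h0 (y i) (Submodule.subset_span ⟨i, rfl⟩)
  rw [← Int.cast_smul_eq_zsmul ℚ] at this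
  exact (smul_eq_zero.1 this).resolve_left hr0

theorem J2_gen (d : Module.End ℚ Y) (y : ι → Y) (i : ι) (k : ℕ) :
    d ((d ^ k) (y i)) - (2 : ℤ) • (d ^ k) (y i) ∈ J2 d y :=
  AddSubgroup.subset_closure ⟨i, k, rfl⟩

theorem J2_sub (d : Module.End ℚ Y) (y : ι → Y) (i : ι) : d (y i) - (2 : ℤ) • y i ∈ J2 d y := by
  simpa using J2_gen d y i 0

theorem J2_map (d : Module.End ℚ Y) (y : ι → Y) {v : Y} (hv : v ∈ J2 d y) : d v ∈ J2 d y := by
  have : J2 d y ≤ (J2 d y).comap d.toAddMonoidHom := by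
    refine (AddSubgroup.closure_le _).2 ?_
    rintro _ ⟨i, k, rfl⟩
    have := J2_gen d y i (k + 1)
    rw [pow_succ', Module.End.mul_apply] at this
    change d _ ∈ J2 d y
    rw [map_sub, map_zsmul]
    exact this
  exact this hv

/-- `d ^ k` acts as `2 ^ k` modulo `J2`. -/
theorem J2_pow (d : Module.End ℚ Y) (y : ι → Y) (i : ι) (k : ℕ) :
    (d ^ k) (y i) - (2 ^ k : ℤ) • y i ∈ J2 d y := by
  induction k with
  | zero => simp
  | succ k ih =>
    have := (J2 d y).add_mem (J2_gen d y i k) ((J2 d y).zsmul_mem ih 2)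
    rw [pow_succ', Module.End.mul_apply, pow_succ', mul_smul]
    rw [smul_sub, sub_add_sub_cancel] at this
    exact this

theorem J2_127 (d : Module.End ℚ Y) (y : ι → Y) (i : ι)
    (hd : (∑ k ∈ Finset.range 7, d ^ k) (y i) = 0) : (127 : ℤ) • y i ∈ J2 d y := by
  have := (J2 d y).sum_mem (t := Finset.range 7) fun k _ => J2_pow d y i k
  rw [Finset.sum_sub_distrib, ← Finset.sum_smul, ← LinearMap.sum_apply, hd, zero_sub,
    neg_mem_iff] at this
  have e : ∑ k ∈ Finset.range 7, (2 ^ k : ℤ) = 127 := by decide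
  rwa [e] at this

theorem nak2 [Finite ι] (d : Module.End ℚ Y) (y : ι → Y)
    (hd : ∀ i, (∑ k ∈ Finset.range 7, d ^ k) (y i) = 0) (h : ∀ i, y i ∈ J2 d y) (i : ι) :
    y i = 0 := by
  let _ : Module ℤ[X] Y := Module.compHom Y (aeval (R := ℤ) d).toRingHom
  have sm : ∀ (p : ℤ[X]) (v : Y), p • v = aeval (R := ℤ) d p v := fun _ _ => rfl
  have hin : Submodule.span ℤ[X] (Set.range y) ≤
      Ideal.span {(X - C 2 : ℤ[X])} • Submodule.span ℤ[X] (Set.range y) := by
    refine Submodule.span_le.2 ?_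
    rintro _ ⟨j, rfl⟩
    have : J2 d y ≤ (Ideal.span {(X - C 2 : ℤ[X])} •
        Submodule.span ℤ[X] (Set.range y)).toAddSubgroup := by
      refine (AddSubgroup.closure_le _).2 ?_
      rintro _ ⟨l, k, rfl⟩
      have := Submodule.smul_mem_smul (I := Ideal.span {(X - C 2 : ℤ[X])})
        (N := Submodule.span ℤ[X] (Set.range y)) (Ideal.mem_span_singleton_self _)
        (Submodule.smul_mem _ (X ^ k : ℤ[X]) (Submodule.subset_span ⟨l, rfl⟩))
      rw [sm, sm, map_sub, map_pow, aeval_X, aeval_C, LinearMap.sub_apply] at this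
      have e : (algebraMap ℤ (Module.End ℚ Y) 2) ((d ^ k) (y l)) = (2 : ℤ) • (d ^ k) (y l) := by
        rw [Algebra.algebraMap_eq_smul_one, LinearMap.smul_apply, Module.End.one_apply]
      rw [e] at this
      exact this
    exact this (h j)
  obtain ⟨r, hr, h0⟩ := Submodule.exists_sub_one_mem_and_smul_eq_zero_of_fg_of_le_smul _ _
    (Submodule.fg_span (Set.finite_range y)) hin
  have h1 : eval 2 r = 1 := by
    have := dvd_iff_isRoot.1 (Ideal.mem_span_singleton.1 hr)
    rw [IsRoot.def, eval_sub, eval_one] at this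
    omega
  have : Fact (Nat.Prime 7) := ⟨by norm_num⟩
  have hy : aeval d (r.map (algebraMap ℤ ℚ)) (y i) = 0 := by
    rw [aeval_map_algebraMap, ← sm]
    exact h0 _ (Submodule.subset_span ⟨i, rfl⟩)
  have hc : aeval d (cyclotomic 7 ℚ) (y i) = 0 := by
    rw [cyclotomic_prime, map_sum]
    simp only [map_pow, aeval_X]
    exact hd i
  rcases (cyclotomic.irreducible_rat (n := 7) (by norm_num)).isCoprime_or_dvd
    (r.map (algebraMap ℤ ℚ)) with ⟨a, b, hab⟩ | hdv
  · have := congrArg (fun p => aeval d p (y i)) hab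
    simp only [map_add, map_mul, LinearMap.add_apply, Module.End.mul_apply, hy, hc, map_zero,
      add_zero, map_one, Module.End.one_apply] at this
    exact this.symm
  · exfalso
    rw [← map_cyclotomic 7 (algebraMap ℤ ℚ), map_dvd_map _ (algebraMap ℤ ℚ).injective_int
      (cyclotomic.monic 7 ℤ)] at hdv
    have := eval_dvd (x := (2 : ℤ)) hdv
    rw [h1, cyclotomic_prime, eval_finsetSum] at this
    simp only [eval_pow, eval_X] at this
    revert this
    decide

end Pool.Agent.MP_00906f_gt.H33U
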