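import Pool.Agent.MP_00906f_gt.H33U.K1

/-! Genus three: the classes of the twists only depend on the planes. -/

namespace Pool.Agent.MP_00906f_gt.H33U

open H46
open H91 (Par)

variable {G H M : Type} [Group G] [AddCommGroup H] [AddCommGroup M] [Module ℚ M] (D : Dat6 G H M)

namespace PL

/-- The contraction of the bivector `x ∧ y` with `z`. -/
def wz (x y z : H) : H := D.ω z x • y - D.ω z y • x

theorem wz_pull {g g' : G} {x y : H}
    (h : ∀ z, wz D (D.ρ g x) (D.ρ g y) z = wz D (D.ρ g' x) (D.ρ g' y) z) (z : H) :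
    wz D (D.ρ (g'⁻¹ * g) x) (D.ρ (g'⁻¹ * g) y) z = wz D x y z := by
  have e := congrArg (D.ρ g'⁻¹) (h (D.ρ g' z))
  simp only [wz, map_sub, map_smul, D.toSys.ρ_inv_ρ, D.toSys.ρ_ω (D.hB g')] at e
  rw [wz, wz, ← e, D.toSys.ρ_mul, D.toSys.ρ_mul, ← D.toSys.ρ_ω (D.hB g') z,
    ← D.toSys.ρ_ω (D.hB g') z, D.toSys.ρ_ρ_inv, D.toSys.ρ_ρ_inv]

theorem wz_span {x y x' y' : H} (h1 : D.ω x' y' = 1) (h : ∀ z, wz D x' y' z = wz D x y z) :
    (∃ a b : ℤ, x' = a • x + b • y) ∧ ∃ a b : ℤ, y' = a • x + b • y := by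
  have e1 := h x'
  have e2 := h y'
  have h2 : D.ω y' x' = -1 := by rw [D.toSys.skew, h1]
  simp only [wz, D.alt, h1, h2] at e1 e2
  refine ⟨⟨D.ω x' y, -D.ω x' x, ?_⟩, ⟨D.ω y' y, -D.ω y' x, ?_⟩⟩
  · linear_combination (norm := module) -e1
  · linear_combination (norm := module) -e2

theorem pull_fix {g g' : G} {m : M} (h : D.π (g'⁻¹ * g) m = m) : D.π g m = D.π g' m := by
  rw [show g = g' * (g'⁻¹ * g) by group, K1.π_mul, h]

theorem fix3 {h : G} (e : ∀ z, wz D (D.ρ h (D.c 0)) (D.ρ h (D.c 1)) z = wz D (D.c 0) (D.c 1) z) :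
    D.π h D.t3 = D.t3 := by
  have hN := K1.h2 D
  have w01 := D.toSys.ω01 hN
  have w10 := D.toSys.ω10 hN
  have h1 : D.ω (D.ρ h (D.c 0)) (D.ρ h (D.c 1)) = 1 := by rw [D.toSys.ρ_ω (D.hB h), w01]
  obtain ⟨⟨a, b, hx⟩, a', b', hy⟩ := wz_span D h1 e
  have hab : IsCoprime a b := by
    rw [hx, hy] at h1
    simp only [map_add, map_smul, LinearMap.add_apply, LinearMap.smul_apply, D.alt, w01, w10,
      smul_eq_mul] at h1
    exact ⟨b', -a', by linear_combination h1⟩
  have hV := (D.toSys.trunc 2 hN).V_two_dim rfl a b hab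
  obtain ⟨γ, hγ, e0⟩ : ∃ γ ∈ BB D.σ 2, D.ρ γ (D.c 0) = D.ρ h (D.c 0) := by
    obtain ⟨γ, hγ, e0 | e0⟩ := (Sys.main 1 (D.toSys.trunc 2 hN) rfl).1 _ hV
    · exact ⟨γ, hγ, hx ▸ e0⟩
    · refine ⟨γ * yy D.σ 0, mul_mem hγ (pow_mem (mul_mem (mem_BB (by omega))
        (mem_BB (by omega))) 3), ?_⟩
      rw [D.toSys.ρ_mul, H91.K1.y0_c0 _ hN, map_neg, hx]
      exact neg_eq_iff_eq_neg.2 e0
  have hL : D.ρ h (D.c 1) ∈ (D.toSys.trunc 2 hN).L := by
    rw [hy]
    exact add_mem (Submodule.smul_mem _ _ ((D.toSys.trunc 2 hN).c_mem (i := 0) (by simp [Sys.trunc])))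
      (Submodule.smul_mem _ _ ((D.toSys.trunc 2 hN).c_mem (i := 1) (by simp [Sys.trunc])))
  obtain ⟨p, hp⟩ := (D.toSys.trunc 2 hN).lat_coord
    ((D.toSys.trunc 2 hN).ρ_L (inv_mem hγ) hL)
  have hp' : D.ρ γ⁻¹ (D.ρ h (D.c 1)) = p 0 • D.c 0 + p 1 • D.c 1 := by
    simpa [Sys.trunc, Finset.sum_range_succ] using hp
  have h2 : p 1 = 1 := by
    rw [← e0, ← D.toSys.ρ_ω (D.hB γ⁻¹), D.toSys.ρ_inv_ρ, hp'] at h1
    simpa [D.alt, w01] using h1
  rw [K1.twd D h γ (p 0) e0.symm ?_, K1.par3 D _ (K1.BB_le_Par D hγ)]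
  rw [← D.toSys.ρ_ρ_inv γ (D.ρ h (D.c 1)), hp', h2, map_add, map_smul, one_smul, add_comm]

/-- The system read from the other end. -/
def flip : Sys G H where
  N := 6
  σ i := D.σ (5 - i)
  c i := (-1 : ℤ) ^ i • D.c (5 - i)
  ω := D.ω
  ρ := D.ρ
  pt k := if k ≤ 6 then D.pt (6 - k) else 0
  bf := by
    have h6 := D.h6
    refine ⟨fun i hi => ?_, fun i j hij hj => (D.bf.comm _ _ (by omega) (by omega)).symm⟩
    have := D.bf.braid (5 - (i + 1)) (by omega)
    rw [show 5 - (i + 1) + 1 = 5 - i by omega] at this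
    exact this.symm
  alt := D.alt
  ch1 i hi := by
    have h6 := D.h6
    have := D.ch1 (5 - (i + 1)) (by omega)
    rw [show 5 - (i + 1) + 1 = 5 - i by omega] at this
    simp only [map_smul, LinearMap.smul_apply, smul_eq_mul]
    rw [D.toSys.skew, this, pow_succ]
    have : ((-1 : ℤ) ^ i) * (-1) ^ i = 1 := by rw [← mul_pow]; simp
    linear_combination this
  ch2 i j hij hj := by
    have h6 := D.h6
    simp only [map_smul, LinearMap.smul_apply, smul_eq_mul]
    rw [D.toSys.skew, D.ch2 _ _ (by omega) (by omega)]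
    simp
  ρσ i hi x := by
    have h6 := D.h6
    rw [D.ρσ _ (by omega), map_smul, smul_smul, smul_eq_mul, mul_right_comm, ← mul_pow]
    simp
  pt_c i hi k := by
    have h6 := D.h6
    by_cases hk : k ≤ 6
    · have e : (((-1 : ℤ) ^ i : ℤ) : ZMod 2) = 1 := by
        push_cast
        rw [show (-1 : ZMod 2) = 1 from rfl, one_pow]
      rw [if_pos hk, D.toSys.pt_zsmul, e, one_mul, D.pt_c _ (by omega)]
      exact if_congr (by omega) rfl rfl
    · rw [if_neg hk, if_neg (by omega)]; rfl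

theorem flip_B (g : G) : g ∈ (flip D).B := by
  have h6 := D.h6
  refine Subgroup.closure_mono ?_ (D.hB g)
  rintro _ ⟨i, hi, rfl⟩
  have hi' : i < D.N := hi
  exact ⟨5 - i, show 5 - i < 6 by omega, by simp only [flip]; congr 1; omega⟩

/-- The second vector of the plane of `t5`. -/
def r5 : H := D.c 0 + D.c 2 + D.c 4

theorem ωr (i : ℕ) (hi : i < 6) : D.ω (r5 D) (D.c i) = if i = 5 then 1 else 0 := by
  have h6 := D.h6
  simp only [r5, map_add, LinearMap.add_apply]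
  rw [D.toSys.lat_ωcc (by omega) (by omega), D.toSys.lat_ωcc (by omega) (by omega),
    D.toSys.lat_ωcc (by omega) (by omega)]
  interval_cases i <;> simp

theorem fix5 {h : G} (h0 : D.ρ h (D.c 5) = D.c 5) (h1 : D.ρ h (r5 D) = r5 D) :
    D.π h D.t5 = D.t5 := by
  have h6 := D.h6
  have h2 : 2 ≤ (flip D).N := by simp [flip]
  have c0 : (flip D).c 0 = D.c 5 := by simp [flip]
  have w5 : D.ω (D.c 5) (r5 D) = -1 := by rw [D.toSys.skew, ωr D 5 (by omega)]; simp
  have horth : ∀ i, i < (flip D).shift.N → (flip D).shift.ω (r5 D) ((flip D).shift.c i) = 0 := by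
    intro i hi
    have hi' : i < 4 := hi
    change D.ω (r5 D) ((-1 : ℤ) ^ (i + 2) • D.c (5 - (i + 2))) = 0
    rw [map_smul, ωr D _ (by omega), if_neg (by omega), smul_zero]
  obtain ⟨k, hk, g, hg, rfl⟩ := (flip D).J_form h2
    ((Sys.main 3 (flip D) rfl).2.1 h (flip_B D h) (Or.inl (by rw [c0]; exact h0)))
  have hk' : k ∈ D.ρ.ker := (flip D).K0_le_ker hk
  obtain ⟨f, hf, β, hβ, rfl⟩ := (flip D).bf.Ga_decomp h2 hg
  have b0 : D.ρ β (D.c 5) = D.c 5 := by rw [← c0]; exact (flip D).ρ_sh_c0 hβ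
  have b1 : D.ρ β (r5 D) = r5 D := (flip D).shift.ρ_fix hβ horth
  rw [D.toSys.ρ_mul, D.toSys.ρ_of_ker hk', D.toSys.ρ_mul] at h0 h1
  rw [b0] at h0
  rw [b1] at h1
  have hβ' : β ∈ BB D.σ 4 := by
    refine Subgroup.closure_mono ?_ hβ
    rintro _ ⟨i, hi, rfl⟩
    have hi' : i < 4 := hi
    exact ⟨5 - (i + 2), show 5 - (i + 2) < 4 by omega, rfl⟩
  have hf' : f ∈ D.ρ.ker := by
    obtain ⟨l, hl, ⟨-, j, hj⟩ | ⟨hl0, j, hj⟩⟩ := (flip D).FF_cases h2 hf
    · have e : D.ρ f (r5 D) = (flip D).E l j (r5 D) := hj _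
      have o : D.ω (r5 D) l = 0 := (flip D).shift.lat_orth horth hl
      have o' : D.ω l (r5 D) = 0 := by rw [D.toSys.skew, o, neg_zero]
      rw [h1, Sys.E, c0] at e
      change r5 D = r5 D + (2 * D.ω (D.c 5) (r5 D)) • l +
        (2 * D.ω l (r5 D) + j * D.ω (D.c 5) (r5 D)) • D.c 5 at e
      rw [w5, o'] at e
      have e1 : (2 : ℤ) • l + j • D.c 5 = 0 := by linear_combination (norm := module) e
      have e2 := congrArg (fun x => D.ω x (r5 D)) e1
      simp only [map_add, map_smul, LinearMap.add_apply, LinearMap.smul_apply, o', w5, map_zero,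
        LinearMap.zero_apply, smul_eq_mul] at e2
      obtain rfl : j = 0 := by omega
      rw [zero_smul, add_zero] at e1
      obtain rfl : l = 0 := D.toSys.torsionFree D.hN (D.hL l) (by norm_num) e1
      exact D.toSys.mem_ker_of fun x => (hj x).trans ((flip D).E_zero x)
    · have e := hj ((flip D).ρ (yy (flip D).σ 0) ((flip D).c 0))
      rw [← (flip D).ρ_mul, inv_mul_cancel_right, H91.K1.y0_c0 _ h2, (flip D).E_neg,
        (flip D).E_c0 hl0, c0] at e
      have e' : D.c 5 = -D.c 5 := h0.symm.trans e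
      exact absurd (c0 ▸ e') ((flip D).c0_ne_neg h2)
  rw [map_mul, map_mul, K1.π_ker D hk', K1.π_ker D hf', one_mul, one_mul]
  exact K1.π_comm D (K1.T5_ker D) (D.bf.T5_comm (by omega) hβ').symm

/-- The matrix of `h` on the plane of `t5`. -/
def St (h : G) (a b a' b' : ℤ) : Prop :=
  D.ρ h (D.c 5) = a • r5 D + b • D.c 5 ∧ D.ρ h (r5 D) = a' • r5 D + b' • D.c 5

theorem St_s {h : G} {a b a' b' : ℤ} (hs : St D h a b a' b') (k : ℤ) :
    St D (D.σ 5 ^ k * h) a (b + k * a) a' (b' + k * a') := by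
  have h6 := D.h6
  have w := ωr D 5 (by omega)
  constructor
  · rw [D.toSys.ρ_mul, hs.1, D.toSys.ρσ_zpow (by omega)]
    simp only [map_add, map_smul, LinearMap.add_apply, LinearMap.smul_apply, D.alt, w]
    simp only [if_true, smul_eq_mul]
    module
  · rw [D.toSys.ρ_mul, hs.2, D.toSys.ρσ_zpow (by omega)]
    simp only [map_add, map_smul, LinearMap.add_apply, LinearMap.smul_apply, D.alt, w]
    simp only [if_true, smul_eq_mul]
    module

/-- The sixth power of the chain of five generators. -/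
def d6 : G := (D.σ 0 * D.σ 1 * D.σ 2 * D.σ 3 * D.σ 4) ^ 6

theorem ρ_d6 (a b : ℤ) : D.ρ (d6 D) (a • r5 D + b • D.c 5) = (a - 2 * b) • r5 D + b • D.c 5 := by
  have w5 : D.ω (D.c 5) (r5 D) = -1 := by rw [D.toSys.skew, ωr D 5 (by omega)]; simp
  have := (kit1 D).ρ_D6 (a • r5 D + b • D.c 5)
  change D.ρ (d6 D) _ = _ + (2 * D.ω _ (r5 D)) • r5 D at this
  rw [this]
  simp only [map_add, map_smul, LinearMap.add_apply, LinearMap.smul_apply, D.alt, w5, smul_eq_mul]
  module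

theorem St_d {h : G} {a b a' b' : ℤ} (hs : St D h a b a' b') :
    St D (d6 D * h) (a - 2 * b) b (a' - 2 * b') b' :=
  ⟨by rw [D.toSys.ρ_mul, hs.1, ρ_d6], by rw [D.toSys.ρ_mul, hs.2, ρ_d6]⟩

theorem St_d' {h : G} {a b a' b' : ℤ} (hs : St D h a b a' b') :
    St D ((d6 D)⁻¹ * h) (a + 2 * b) b (a' + 2 * b') b' := by
  have e : ∀ a b : ℤ, D.ρ (d6 D)⁻¹ (a • r5 D + b • D.c 5) = (a + 2 * b) • r5 D + b • D.c 5 := by
    intro a b
    rw [← D.toSys.ρ_inv_ρ (d6 D) ((a + 2 * b) • r5 D + b • D.c 5), ρ_d6, add_sub_cancel_right]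
  exact ⟨by rw [D.toSys.ρ_mul, hs.1, e], by rw [D.toSys.ρ_mul, hs.2, e]⟩

theorem back {m h : G} (hm : D.π m D.t5 = D.t5) (e : D.π (m * h) D.t5 = D.t5) :
    D.π h D.t5 = D.t5 := by
  have h1 : D.π m⁻¹ D.t5 = D.t5 := by
    conv_lhs => rw [← hm]
    rw [← K1.π_mul, inv_mul_cancel, map_one, Module.End.one_apply]
  rw [show h = m⁻¹ * (m * h) by group, K1.π_mul, e, h1]

theorem s_t5 (k : ℤ) : D.π (D.σ 5 ^ k) D.t5 = D.t5 := by
  have h : D.σ 5 ∈ Par D.σ D.N 4 :=
    Subgroup.subset_closure ⟨5, ⟨by have := D.h6; omega, by omega⟩, rfl⟩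
  exact (kit1 D).par5 _ (zpow_mem h k)

theorem d_t5 : D.π (d6 D) D.t5 = D.t5 := (kit1 D).D6_t5

theorem d_t5' : D.π (d6 D)⁻¹ D.t5 = D.t5 :=
  back D (d_t5 D) (by rw [mul_inv_cancel, map_one, Module.End.one_apply])

theorem euclid (n : ℕ) : ∀ (h : G) (a b a' b' : ℤ), a.natAbs + b.natAbs = n → Even a →
    a' * b - b' * a = 1 → St D h a b a' b' → D.π h D.t5 = D.t5 := by
  induction n using Nat.strong_induction_on with
  | _ n ih =>
    intro h a b a' b' hn ha hd hs
    have hb : ¬ Even b := fun hb => by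
      have : Even (a' * b - b' * a) := (hb.mul_left _).sub (ha.mul_left _)
      rw [hd] at this
      exact absurd this (by decide)
    have ha' := Int.even_iff.1 ha
    have hb' := Int.not_even_iff.1 hb
    have one : ∀ (h : G) (b' : ℤ), St D h 0 1 1 b' → D.π h D.t5 = D.t5 := fun h b' hs => by
      have := St_s D hs (-b')
      refine back D (s_t5 D (-b')) (fix5 D ?_ ?_)
      · rw [this.1]; module
      · rw [this.2]; module
    by_cases h0 : a = 0
    · subst h0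
      rw [mul_zero, sub_zero] at hd
      rcases Int.eq_one_or_neg_one_of_mul_eq_one' hd with ⟨rfl, rfl⟩ | ⟨rfl, rfl⟩
      · exact one h b' hs
      · have h1 := St_d D (St_s D (St_d D (St_s D hs 1)) 1)
        refine back D (s_t5 D 1) (back D (d_t5 D) (back D (s_t5 D 1) (back D (d_t5 D)
          (one _ (-b') ⟨?_, ?_⟩))))
        · rw [h1.1]; module
        · rw [h1.2]; module
    by_cases h1 : a.natAbs < b.natAbs
    · by_cases h2 : 0 < a ↔ 0 < b
      · exact back D (s_t5 D (-1)) (ih _ (by omega) _ _ _ _ _ rfl ha (by linear_combination hd)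
          (St_s D hs (-1)))
      · exact back D (s_t5 D 1) (ih _ (by omega) _ _ _ _ _ rfl ha (by linear_combination hd)
          (St_s D hs 1))
    · by_cases h2 : 0 < a ↔ 0 < b
      · exact back D (d_t5 D) (ih _ (by omega) _ _ _ _ _ rfl (Int.even_iff.2 (by omega))
          (by linear_combination hd) (St_d D hs))
      · exact back D (d_t5' D) (ih _ (by omega) _ _ _ _ _ rfl (Int.even_iff.2 (by omega))
          (by linear_combination hd) (St_d' D hs))

theorem fix5' {h : G} (e : ∀ z, wz D (D.ρ h (r5 D)) (D.ρ h (D.c 5)) z = wz D (r5 D) (D.c 5) z) :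
    D.π h D.t5 = D.t5 := by
  have h6 := D.h6
  have w := ωr D 5 (by omega)
  rw [if_pos rfl] at w
  have w5 : D.ω (D.c 5) (r5 D) = -1 := by rw [D.toSys.skew, w]
  have h1 : D.ω (D.ρ h (r5 D)) (D.ρ h (D.c 5)) = 1 := by rw [D.toSys.ρ_ω (D.hB h), w]
  obtain ⟨⟨a', b', hx⟩, a, b, hy⟩ := wz_span D h1 e
  refine euclid D _ h a b a' b' rfl ?_ ?_ ⟨hy, hx⟩
  · obtain ⟨-, -, i, j, -, -, hp⟩ := D.toSys.ρ_V (D.hB h) (D.toSys.V_c D.hN (i := 5) (by omega))
    have key : ∀ k, k < 3 → (a : ZMod 2) = if k = i ∨ k = j then 1 else 0 := fun k hk => by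
      rw [← hp k, hy, r5]
      simp only [map_add, D.toSys.pt_zsmul]
      rw [D.pt_c 0 (by omega), D.pt_c 2 (by omega), D.pt_c 4 (by omega), D.pt_c 5 (by omega)]
      interval_cases k <;> simp
    obtain ⟨k, hk, hk'⟩ : ∃ k, k < 3 ∧ ¬ (k = i ∨ k = j) := by
      by_contra hc
      push Not at hc
      have := hc 0 (by omega)
      have := hc 1 (by omega)
      have := hc 2 (by omega)
      omega
    have := key k hk
    rw [if_neg hk'] at this
    exact even_iff_two_dvd.2 ((ZMod.intCast_zmod_eq_zero_iff_dvd a 2).1 this)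
  · rw [hx, hy] at h1
    simp only [map_add, map_smul, LinearMap.add_apply, LinearMap.smul_apply, D.alt, w, w5,
      smul_eq_mul] at h1
    linear_combination h1

theorem crd_sum (crd : ℕ → H →+ ℤ)
    (hc : ∀ i j, i < 6 → j < 6 → crd i (D.c j) = if i = j then 1 else 0) (x : H) :
    x = ∑ i ∈ Finset.range 6, crd i x • D.c i := by
  obtain ⟨a, rfl⟩ := D.toSys.lat_coord (D.hL x)
  rw [D.h6]
  refine Finset.sum_congr rfl fun i hi => ?_
  rw [map_sum, Finset.sum_congr rfl fun j hj => by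
    rw [map_zsmul, hc i j (Finset.mem_range.1 hi) (Finset.mem_range.1 hj)]]
  simp [Finset.mem_range.1 hi]

end PL

/-- The minor of the coordinates `i, j` of two vectors. -/
def minor (crd : ℕ → H →+ ℤ) (i j : ℕ) (x y : H) : ℤ := crd i x * crd j y - crd j x * crd i y

theorem PL.wz_minor (crd : ℕ → H →+ ℤ)
    (hc : ∀ i j, i < 6 → j < 6 → crd i (D.c j) = if i = j then 1 else 0) {x y x' y' : H}
    (h : ∀ i j, i < j → j < 6 → minor crd i j x y = minor crd i j x' y') (z : H) :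
    PL.wz D x y z = PL.wz D x' y' z := by
  have key : ∀ x y, PL.wz D x y z = ∑ i ∈ Finset.range 6, ∑ j ∈ Finset.range 6,
      (minor crd i j x y * D.ω z (D.c i)) • D.c j := fun x y => by
    have e : ∀ x y, D.ω z x • y = ∑ i ∈ Finset.range 6, ∑ j ∈ Finset.range 6,
        (crd i x * crd j y * D.ω z (D.c i)) • D.c j := fun x y => by
      conv_lhs => rw [PL.crd_sum D crd hc x, PL.crd_sum D crd hc y]
      rw [map_sum, Finset.sum_smul]
      refine Finset.sum_congr rfl fun i _ => ?_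
      rw [Finset.smul_sum]
      refine Finset.sum_congr rfl fun j _ => ?_
      rw [map_smul, smul_smul, smul_eq_mul]
      congr 1; ring
    rw [PL.wz, e, e, ← Finset.sum_sub_distrib]
    refine Finset.sum_congr rfl fun i _ => ?_
    rw [← Finset.sum_sub_distrib]
    refine Finset.sum_congr rfl fun j _ => ?_
    rw [← sub_smul, minor]
    congr 1; ring
  rw [key, key]
  refine Finset.sum_congr rfl fun i hi => Finset.sum_congr rfl fun j hj => ?_
  have hi' := Finset.mem_range.1 hi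
  have hj' := Finset.mem_range.1 hj
  congr 2
  rcases lt_trichotomy i j with h1 | rfl | h1
  · exact h i j h1 hj'
  · simp [minor]
  · have := h j i h1 hi'
    simp only [minor] at this ⊢
    linarith

theorem pl3 (crd : ℕ → H →+ ℤ)
    (hc : ∀ i j, i < 6 → j < 6 → crd i (D.c j) = if i = j then 1 else 0) (g g' : G)
    (h : ∀ i j, i < j → j < 6 → minor crd i j (D.ρ g (D.c 0)) (D.ρ g (D.c 1)) =
      minor crd i j (D.ρ g' (D.c 0)) (D.ρ g' (D.c 1))) : D.π g D.t3 = D.π g' D.t3 :=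
  PL.pull_fix D (PL.fix3 D (PL.wz_pull D (PL.wz_minor D crd hc h)))

theorem pl5 (crd : ℕ → H →+ ℤ)
    (hc : ∀ i j, i < 6 → j < 6 → crd i (D.c j) = if i = j then 1 else 0) (g g' : G)
    (h : ∀ i j, i < j → j < 6 →
      minor crd i j (D.ρ g (D.c 0 + D.c 2 + D.c 4)) (D.ρ g (D.c 5)) =
        minor crd i j (D.ρ g' (D.c 0 + D.c 2 + D.c 4)) (D.ρ g' (D.c 5))) :
    D.π g D.t5 = D.π g' D.t5 :=
  PL.pull_fix D (PL.fix5' D (PL.wz_pull D (PL.wz_minor D crd hc h)))

theorem exists_crd : ∃ crd : ℕ → H →+ ℤ,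
    ∀ i j, i < 6 → j < 6 → crd i (D.c j) = if i = j then 1 else 0 := by
  have h6 := D.h6
  have : ∀ i, ∃ d, i < 6 → ∀ j, j < 6 → D.ω (D.c j) d = if j = i then 1 else 0 := fun i => by
    by_cases hi : i < 6
    · obtain ⟨d, -, hd⟩ := D.toSys.lat_dual D.hN (i := i) (by omega)
      exact ⟨d, fun _ j hj => hd j (by omega)⟩
    · exact ⟨0, fun h => absurd h hi⟩
  choose d hd using this
  exact ⟨fun i => (D.ω.flip (d i)).toAddMonoidHom, fun i j hi hj =>
    (hd i hi j hj).trans (if_congr eq_comm rfl rfl)⟩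

end Pool.Agent.MP_00906f_gt.H33U
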