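import Pool.Agent.MP_00906f_gt.H33U.K1
import Pool.Agent.MP_00906f_gt.H91.REL

/-! Genus three: the four-point relation. -/

namespace Pool.Agent.MP_00906f_gt.H33U

open H46 BW
open H91 (g0 w1 w2 w3 Par)
open H91.REL (Z5 tv act chk)

namespace REL

variable {G H M : Type} [Group G] [AddCommGroup H] [AddCommGroup M] [Module ℚ M] (D : Dat6 G H M)

/-- The vector with the given coordinates. -/
def vv (a : Z5) : H :=
  a.1 • D.c 0 + a.2.1 • D.c 1 + a.2.2.1 • D.c 2 + a.2.2.2.1 • D.c 3 + a.2.2.2.2 • D.c 4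

theorem vv_tv {i : ℕ} (hi : i < 5) (e : ℤ) (a : Z5) :
    vv D a + e • D.ω (vv D a) (D.c i) • D.c i = vv D (tv i e a) := by
  have h6 := D.h6
  have h : ∀ j k, j < 5 → k < 5 → D.ω (D.c j) (D.c k) =
      (if k = j + 1 then 1 else 0) - (if j = k + 1 then 1 else 0) :=
    fun j k hj hk => D.toSys.lat_ωcc (by omega) (by omega)
  simp only [vv, map_add, map_smul, LinearMap.add_apply, LinearMap.smul_apply,
    h 0 i (by omega) hi, h 1 i (by omega) hi, h 2 i (by omega) hi, h 3 i (by omega) hi,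
    h 4 i (by omega) hi, smul_eq_mul]
  interval_cases i <;> simp only [tv] <;> norm_num <;> module

theorem ρ_ev (w : List (ℕ × Bool)) (hw : ∀ x ∈ w, x.1 < 5) (a : Z5) :
    D.ρ (ev D.σ w) (vv D a) = vv D (act w a) := by
  have h6 := D.h6
  induction w with
  | nil => exact D.toSys.ρ_one _
  | cons x w ih =>
    obtain ⟨i, b⟩ := x
    have hi : i < 5 := hw (i, b) (by simp)
    rw [ev_cons, D.toSys.ρ_mul, ih fun x hx => hw x (List.mem_cons_of_mem _ hx), act,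
      ← vv_tv D hi]
    cases b
    · simp only [lt1]
      rw [D.toSys.ρσ_inv (by omega)]
      simp [sub_eq_add_neg]
    · simp only [lt1]
      rw [D.ρσ i (by omega)]
      simp

theorem cmp (K : Kit1 D) (e e' : BW) (i : ℤ) (h : chk e e' i = true) :
    D.π (eval D.σ e) D.t3 = D.π (eval D.σ e') D.t3 := by
  simp only [chk, Bool.and_eq_true, List.all_eq_true, decide_eq_true_eq] at h
  obtain ⟨⟨⟨h1, h2⟩, h3⟩, h4⟩ := h
  have c0 : D.c 0 = vv D (1, 0, 0, 0, 0) := by simp [vv]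
  have c1 : D.c 1 = vv D (0, 1, 0, 0, 0) := by simp [vv]
  have c2 : D.c 1 + i • D.c 0 = vv D (i, 1, 0, 0, 0) := by simp [vv, add_comm]
  refine K.twd _ _ i ?_ ?_
  · rw [← ev_toL, ← ev_toL, c0, ρ_ev D _ h1, ρ_ev D _ h2, h3]
  · rw [← map_smul, ← map_add, c2, ← ev_toL, ← ev_toL, c1, ρ_ev D _ h1, ρ_ev D _ h2, h4]

end REL

theorem rel {G H M : Type} [Group G] [AddCommGroup H] [AddCommGroup M] [Module ℚ M]
    (D : Dat6 G H M) : Rel D := by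
  have K := kit1 D
  have h6 := D.h6
  have nm := MonoidHom.normal_ker D.ρ
  have c3 : ∀ g, g * T3 D.σ * g⁻¹ ∈ D.ρ.ker := nm.conj_mem _ K.T3_ker
  have hq : T5 D.σ * (g0 D.σ * T3 D.σ * (g0 D.σ)⁻¹)⁻¹ ∈ D.ρ.ker :=
    mul_mem K.T5_ker (inv_mem (c3 _))
  have cq := nm.conj_mem _ hq
  have v3 : ∀ g, D.cl (g * T3 D.σ * g⁻¹) = D.π g D.t3 := fun g => (D.π_cl g _ K.T3_ker).symm
  have vq : ∀ g, D.cl (g * (T5 D.σ * (g0 D.σ * T3 D.σ * (g0 D.σ)⁻¹)⁻¹) * g⁻¹) =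
      D.π g D.t5 - D.π (g * g0 D.σ) D.t3 := by
    intro g
    rw [← D.π_cl g _ hq, D.cl_mul _ K.T5_ker _ (inv_mem (c3 _)), K.cl_inv _ (c3 _), v3, map_add,
      map_neg, map_mul D.π g, ← sub_eq_add_neg]
    rfl
  have h := congrArg D.cl (H91.REL.key D.bf (by omega) _ rfl (fun g k => g * k * g⁻¹) fun _ _ => rfl)
  rw [D.cl_mul _ (cq _) _ (inv_mem (cq _)),
    D.cl_mul _ (mul_mem (mul_mem (mul_mem (c3 _) (c3 _)) (inv_mem (c3 _))) (inv_mem (c3 _))) _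
      (mul_mem (inv_mem (cq _)) (cq _)),
    D.cl_mul _ (mul_mem (mul_mem (c3 _) (c3 _)) (inv_mem (c3 _))) _ (inv_mem (c3 _)),
    D.cl_mul _ (mul_mem (c3 _) (c3 _)) _ (inv_mem (c3 _)), D.cl_mul _ (c3 _) _ (c3 _),
    D.cl_mul _ (inv_mem (cq _)) _ (cq _), K.cl_inv _ (cq _), K.cl_inv _ (cq _),
    K.cl_inv _ (c3 _), K.cl_inv _ (c3 _)] at h
  simp only [v3, vq] at h
  have y0 : ∀ g, D.π (g * yy D.σ 0) D.t3 = D.π g D.t3 := by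
    intro g
    rw [map_mul, Module.End.mul_apply, K.par3]
    have m : ∀ i, i < 2 → D.σ i ∈ Par D.σ D.N 2 := fun i hi =>
      Subgroup.subset_closure ⟨i, ⟨by omega, by omega⟩, rfl⟩
    exact pow_mem (mul_mem (m 0 (by omega)) (m 1 (by omega))) 3
  have a1 : D.π (yy D.σ 1 * yy D.σ 2 * (D.σ 4 * D.σ 3 * D.σ 2)) D.t3 = D.π (w3 D.σ) D.t3 :=
    REL.cmp D K (Y 1 * Y 2 * (g 4 * g 3 * g 2)) ((g 4)⁻¹ * (g 3)⁻¹ * g 2) (-4) (by decide +kernel)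
  have a2 : D.π (yy D.σ 1 * yy D.σ 2 * (yy D.σ 3)⁻¹ * D.σ 2 * yy D.σ 0) D.t3 =
      D.π (w1 D.σ) D.t3 :=
    REL.cmp D K (Y 1 * Y 2 * (Y 3)⁻¹ * g 2 * Y 0)
      ((g 3)⁻¹ * (g 4)⁻¹ * (g 4)⁻¹ * (g 3)⁻¹ * g 2) (-4) (by decide +kernel)
  have a3 : D.π (yy D.σ 1 * yy D.σ 2 * (yy D.σ 3)⁻¹ * (yy D.σ 1)⁻¹ * (yy D.σ 0)⁻¹ *
      (yy D.σ 3)⁻¹ * (D.σ 3 * D.σ 2)) D.t3 = D.π (w2 D.σ) D.t3 :=
    REL.cmp D K (Y 1 * Y 2 * (Y 3)⁻¹ * (Y 1)⁻¹ * (Y 0)⁻¹ * (Y 3)⁻¹ * (g 3 * g 2))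
      (g 3 * (g 2)⁻¹) (-2) (by decide +kernel)
  have a4 : D.π (yy D.σ 1 * yy D.σ 2 * (yy D.σ 3)⁻¹ * (yy D.σ 1)⁻¹ * (yy D.σ 0)⁻¹ *
      (yy D.σ 3)⁻¹ * yy D.σ 2 * yy D.σ 0) D.t3 = D.π 1 D.t3 :=
    REL.cmp D K (Y 1 * Y 2 * (Y 3)⁻¹ * (Y 1)⁻¹ * (Y 0)⁻¹ * (Y 3)⁻¹ * Y 2 * Y 0) BW.one 0
      (by decide +kernel)
  rw [y0] at a2 a4
  rw [map_one, Module.End.one_apply] at a4
  rw [a1, a2, a3, a4] at h
  unfold Rel
  linear_combination (norm := module) h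

end Pool.Agent.MP_00906f_gt.H33U
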